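import Pool.Agent.Y121.TP.Defs

/-!
# The noncommutative Tate conjecture for direct summands: definitions

`C` is the theory of the Chow groups of the varieties over `𝔽_q`, and `H` the `l`-adic cohomology
`H(X̄, ℚ_l)`. The Chern character (times the square root of the Todd class) identifies `K_0(X)_ℚ` with
`CH^*(X)_ℚ`, the completed `K`-theory with the Tate classes of all degrees (Thomason), and the
action of `K_0(X × X)_ℚ` with the action of `CH^*(X × X)_ℚ`, the correspondences of all degrees.
-/

open CategoryTheory AlgebraicGeometry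

universe u v

namespace Pool.Agent.Y121.GT

open Pool.Agent.H914 Pool.Agent.H914.VarClass Pool.Agent.H914.VarClass.Obj Pool.Agent.W492.BB
  Pool.Agent.W550.Corr Pool.Agent.TH133 Pool.Agent.Y121.NK

variable {k : Type u} [Field k] {𝒱 : VarClass k} {C : TheoryData.{u, v, 0} 𝒱 ℚ} {K : Type}
  [Field K]

/-- The noncommutative motives `(X, e)` and `(X, p)` are isomorphic modulo homological equivalence:
there are correspondences `u` and `v` (of all degrees) such that `u ∘ v` is homologically
equivalent to `e`, and `v ∘ u` to `p`. -/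
def HomIsoK (H : WeilTheoryData.{u, v, 0} C K) {X : 𝒱.Obj} (e p : C.A (X.prod X)) : Prop :=
  ∃ u v : C.A (X.prod X), HomEq H (C.comp v u) e ∧ HomEq H (C.comp u v) p

/-- The Chow groups over the finite extensions of the base field: `CC n` is the theory of the Chow
groups `CH^*(X_n)_ℚ` of the base changes `X_n` of the varieties `X` to the extension of degree
`n + 1`, `cl n` is the cycle class map with values in the (same) cohomology `H(X̄)`, and `bc n` is
the base change `CH^*(X) → CH^*(X_n)`. -/
structure Tower (H : WeilTheoryData.{u, v, 0} C K) where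
  CC : ℕ → TheoryData.{u, v, 0} 𝒱 ℚ
  cl : ∀ (n : ℕ) (X : 𝒱.Obj), (CC n).A X →+* H.A X
  bc : ∀ (n : ℕ) (X : 𝒱.Obj), C.A X →+* (CC n).A X

variable {H : WeilTheoryData.{u, v, 0} C K}

/-- The cohomology `H` with the cycle class maps over the extension of degree `n + 1`. -/
def Tower.lvl (T : Tower H) (n : ℕ) : WeilTheoryData.{u, v, 0} (T.CC n) K where
  toTheoryData := H.toTheoryData
  tr := H.tr
  cl := fun {X} => T.cl n X

/-- The formal properties of the Chow groups over the finite extensions. -/
structure IsTower (T : Tower H) : Prop where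
  isChow : ∀ n, IsChowProj (T.CC n)
  isWeil : ∀ n, IsWeilProj (T.lvl n)
  cl_bc : ∀ (n : ℕ) (X : 𝒱.Obj) (z : C.A X), T.cl n X (T.bc n X z) = H.cl z

/-- The Tate classes in `H^(2 i)(X̄)(i)` over the extension of degree `n + 1`: the classes `a` with
`(φ^*)^(n + 1) a = q^(i (n + 1)) a`. -/
def tate (H : WeilTheoryData.{u, v, 0} C K) {X : 𝒱.Obj} (q : ℕ) (φ : X ⟶ X) (n : ℕ) (i : ℤ) :
    Submodule K (H.A X) :=
  H.gr X (2 * i) ⊓
    Module.End.eigenspace ((H.pull φ).toLinearMap ^ (n + 1)) (((q : K) ^ i) ^ (n + 1))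

/-- The sums of Tate classes of all degrees. -/
def tateAll (H : WeilTheoryData.{u, v, 0} C K) {X : 𝒱.Obj} (q : ℕ) (φ : X ⟶ X) (n : ℕ) :
    Submodule K (H.A X) :=
  ⨆ i : ℤ, tate H q φ n i

/-- The noncommutative Tate conjecture for the direct summand `(X, e)` over the extension of degree
`n + 1`: the Tate classes (of all degrees) fixed by `e` are linear combinations of the classes of
the elements of `K_0(X_n, e)_ℚ = e K_0(X_n)_ℚ`. -/
def NCTate (T : Tower H) {X : 𝒱.Obj} (q : ℕ) (φ : X ⟶ X) (n : ℕ) (e : C.A (X.prod X)) : Prop :=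
  ∀ a ∈ tateAll H q φ n, H.act (H.cl e) a = a → a ∈ Submodule.span K
    (Set.range fun z : (T.CC n).A X => T.cl n X ((T.CC n).act (T.bc n (X.prod X) e) z))

/-- The Tate conjecture for the Chow motive `(X, p)` in all codimensions, over the extension of
degree `n + 1`: the Tate classes in `H^(2 i)(X̄)(i)` fixed by `p` are linear combinations of the
classes of elements of `p CH^i(X_n)_ℚ`. -/
def MotTate (T : Tower H) {X : 𝒱.Obj} (q : ℕ) (φ : X ⟶ X) (n : ℕ) (p : C.A (X.prod X)) : Prop :=
  ∀ (i : ℤ), ∀ a ∈ tate H q φ n i, H.act (H.cl p) a = a → a ∈ Submodule.span K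
    {b | ∃ z : (T.CC n).A X, (T.CC n).Deg i z ∧
      b = T.cl n X ((T.CC n).act (T.bc n (X.prod X) p) z)}

end Pool.Agent.Y121.GT
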