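import Mathlib.LinearAlgebra.Eigenspace.Basic
import Mathlib.LinearAlgebra.Dimension.Finrank
import Mathlib.LinearAlgebra.FiniteDimensional.Basic
import Mathlib.Data.Rat.Cast.CharZero
import Mathlib.Algebra.Module.Rat

/-!
# Invariants and multiplicities: general definitions
-/

namespace Pool.Agent.Y121.GT

section

variable (K : Type) [Field K] {V : Type*} [AddCommGroup V] [Module K V]

/-- The even part of a graded space. -/
def evenPart (gr : ℤ → Submodule K V) : Submodule K V := ⨆ i : ℤ, gr (2 * i)

/-- `F` is `q^(-i) Φ` on `gr (2 i)`. -/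
def IsTwist (q : ℕ) (gr : ℤ → Submodule K V) (Φ F : V → V) : Prop :=
  ∀ (i : ℤ) (a : V), a ∈ gr (2 * i) → F a = ((q : K) ^ i)⁻¹ • Φ a

/-- `F ^ m` fixes all elements of `S`. -/
def PowFixes (F : V →ₗ[K] V) (m : ℕ) (S : Set V) : Prop := ∀ a ∈ S, (F ^ m) a = a

/-- All elements of `N` fixed by `F ^ m` are linear combinations of elements of `S`. -/
def InvIn (F : V →ₗ[K] V) (m : ℕ) (N S : Set V) : Prop :=
  ∀ a ∈ N, (F ^ m) a = a → a ∈ Submodule.span K S

/-- The (algebraic) multiplicity of the eigenvalue one of `F ^ m` on the subspace `N` (stable under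
`F`): the dimension of the space of all vectors of `N` killed by a power of `F ^ m - 1`. -/
noncomputable def multOne (F : V →ₗ[K] V) (m : ℕ) (N : Set V) : ℕ :=
  Module.finrank K (Submodule.span K {a | a ∈ N ∧ ∃ l : ℕ, ((F ^ m - 1) ^ l) a = 0})

end

/-- The dimension of the image of the rational span of `M` modulo the rational span of `Z`. -/
noncomputable def rankMod {A : Type*} [AddCommGroup A] [Module ℚ A] (M Z : Set A) : ℕ :=
  Module.finrank ℚ ((Submodule.span ℚ M).map (Submodule.span ℚ Z).mkQ)

end Pool.Agent.Y121.GT
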