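import Pool.Agent.Y121.TP.Defs
import Pool.Agent.Y121.GT.Gen

/-!
# The Tate conjecture for direct summands and several primes: definitions
-/

open CategoryTheory AlgebraicGeometry

universe u v

namespace Pool.Agent.Y121.GT

open Pool.Agent.H914 Pool.Agent.H914.VarClass Pool.Agent.H914.VarClass.Obj Pool.Agent.W492.BB
  Pool.Agent.W550.Corr Pool.Agent.TH133 Pool.Agent.Y121.NK Pool.Agent.Y121.TP

variable {k : Type u} [Field k] {𝒱 : VarClass k} {C : TheoryData.{u, v, 0} 𝒱 ℚ}

/-- The Chow groups over the finite extensions of the base field: `CC n` is the theory of the Chow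
groups `CH^*(X_n)_ℚ` of the base changes `X_n` of the varieties `X` to the extension of degree
`n + 1`, and `bc n` is the base change `CH^*(X) → CH^*(X_n)`. -/
structure ChowTower (C : TheoryData.{u, v, 0} 𝒱 ℚ) where
  CC : ℕ → TheoryData.{u, v, 0} 𝒱 ℚ
  bc : ∀ (n : ℕ) (X : 𝒱.Obj), C.A X →+* (CC n).A X

/-- Cycle class maps with values in the cohomology theory `H` (in the use: `l`-adic cohomology
`H(X̄, ℚ_l)`) for the cycles over the finite extensions. -/
structure Classes {K : Type} [Field K] (T : ChowTower C) (H : WeilTheoryData.{u, v, 0} C K) where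
  cl : ∀ (n : ℕ) (X : 𝒱.Obj), (T.CC n).A X →+* H.A X

variable {T : ChowTower C} {K : Type} [Field K] {H : WeilTheoryData.{u, v, 0} C K}

/-- The cohomology `H` with the cycle class maps over the extension of degree `n + 1`. -/
def Classes.lvl (c : Classes T H) (n : ℕ) : WeilTheoryData.{u, v, 0} (T.CC n) K where
  toTheoryData := H.toTheoryData
  tr := H.tr
  cl := fun {X} => c.cl n X

/-- The formal properties of the cycle class maps over the finite extensions. -/
structure IsLevel (c : Classes T H) : Prop where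
  isWeil_lvl : ∀ n, IsWeilProj (c.lvl n)
  cl_bc : ∀ (n : ℕ) (X : 𝒱.Obj) (z : C.A X), c.cl n X (T.bc n X z) = H.cl z

/-- The linear operator `F` is the cyclotomic Frobenius on `⊕_i H^(2 i)(X̄)(i)`: it is `q^(-i) φ^*`
on `H^(2 i)(X̄)`, and `F ^ (n + 1)` fixes the classes of the cycles on `X_n`. -/
structure IsCyclo (c : Classes T H) (X : 𝒱.Obj) (q : ℕ) (φ : X ⟶ X) (F : H.A X →ₗ[K] H.A X) :
    Prop where
  isTwist : IsTwist K q (H.gr X) (H.up φ) F
  fixed : ∀ n : ℕ, PowFixes K F (n + 1) (Set.range (c.cl n X))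

/-- The properties of the `l`-adic cohomology of the varieties over `𝔽_q` which are used, for the
`q`-power Frobenius `φ` of `X` and the cyclotomic Frobenius `F`. -/
structure IsReal [CharZero K] (c : Classes T H) (X : 𝒱.Obj) [FiniteDimensional K (H.A X)]
    (q : ℕ) (φ : X ⟶ X) (F : H.A X →ₗ[K] H.A X) : Prop where
  isWeil : IsWeilProj H
  isLevel : IsLevel c
  comm : GradedComm H
  isFrob : IsFrob H q φ
  isCyclo : IsCyclo c X q φ F

/-- The elements of `K_0(X_n, e)_ℚ = e K_0(X_n)_ℚ`. -/
def K0 (T : ChowTower C) {X : 𝒱.Obj} (n : ℕ) (e : C.A (X.prod X)) : Set ((T.CC n).A X) :=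
  Set.range ((T.CC n).act (T.bc n (X.prod X) e))

/-- The numerically trivial classes: the degree of `z b` is zero for all `b`. -/
def Num (T : ChowTower C) (X : 𝒱.Obj) (n : ℕ) : Set ((T.CC n).A X) :=
  {z | ∀ b, HasDegree (T.CC n) ((T.CC n).mul z b) 0}

/-- `TP_0(X, e) = e (⊕_i H^(2 i)(X̄)(i))`, the classes fixed by `e`. -/
def TPe (H : WeilTheoryData.{u, v, 0} C K) {X : 𝒱.Obj} (e : C.A (X.prod X)) : Set (H.A X) :=
  {a | a ∈ evenPart K (H.gr X) ∧ H.act (H.cl e) a = a}

/-- The class `e` acts as an idempotent on `H(X̄)`. -/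
def ActsIdem (H : WeilTheoryData.{u, v, 0} C K) {X : 𝒱.Obj} (e : C.A (X.prod X)) : Prop :=
  ∀ a, H.act (H.cl e) (H.act (H.cl e) a) = H.act (H.cl e) a

/-- The multiplicity of the eigenvalue one of the Frobenius `F ^ (n + 1)` of the extension of degree
`n + 1` on `TP_0(X, e)`. -/
noncomputable def multNC (H : WeilTheoryData.{u, v, 0} C K) {X : 𝒱.Obj} (F : H.A X →ₗ[K] H.A X)
    (n : ℕ) (e : C.A (X.prod X)) : ℕ :=
  multOne K F (n + 1) (TPe H e)

/-- The noncommutative Tate conjecture for the direct summand `(X, e)` over the extension of degree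
`n + 1`: the Frobenius invariants of `TP_0(X, e)` are linear combinations of the classes of the
elements of `K_0(X_n, e)`. -/
def TateNC (c : Classes T H) {X : 𝒱.Obj} (F : H.A X →ₗ[K] H.A X) (n : ℕ)
    (e : C.A (X.prod X)) : Prop :=
  InvIn K F (n + 1) (TPe H e) (c.cl n X '' K0 T n e)

/-- Numerical and homological equivalence are equal on `K_0(X_n, e)_ℚ`. -/
def NumHomNC (c : Classes T H) {X : 𝒱.Obj} (n : ℕ) (e : C.A (X.prod X)) : Prop :=
  ∀ z ∈ K0 T n e, z ∈ Num T X n → c.cl n X z = 0

/-- The rank of `K_0(X_n, e)_ℚ` modulo numerical equivalence. -/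
noncomputable def rankNC (T : ChowTower C) {X : 𝒱.Obj} (n : ℕ) (e : C.A (X.prod X)) : ℕ :=
  rankMod (K0 T n e) (Num T X n)

end Pool.Agent.Y121.GT
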