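import Mathlib

/-!
# Linear algebra for Tate's theorem

`f` is the (twisted) Frobenius on a finite-dimensional space `V`, `M` a rational vector space of
cycles with a map `c` to the fixed vectors of `f`, and `β` the intersection pairing of `M` with
another space `M'` of cycles, which is compatible with a pairing `B` of `V` with `W`.
-/

namespace Pool.Agent.Y121.GT.Lin

open Module

variable {K : Type} [Field K] [CharZero K]

/-- Rational-valued functions which are linearly independent over `ℚ` are linearly independent over
`K`. -/
lemma linInd_cast {ι N : Type*} [Finite ι] {v : ι → N → ℚ} (hv : LinearIndependent ℚ v) :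
    LinearIndependent K (fun i z => (v i z : K)) := by
  have := Fintype.ofFinite ι
  rw [Fintype.linearIndependent_iff] at hv ⊢
  intro g hg i
  rw [← Module.forall_dual_apply_eq_zero_iff ℚ]
  intro τ
  refine hv (fun i => τ (g i)) ?_ i
  ext z
  have h1 := congrFun hg z
  simp only [Finset.sum_apply, Pi.smul_apply, smul_eq_mul, Pi.zero_apply] at h1 ⊢
  have h2 := congrArg τ h1
  rw [map_sum, map_zero] at h2
  rw [← h2]
  refine Finset.sum_congr rfl fun j _ => ?_
  have h3 : g j * (v j z : K) = (v j z) • g j := by
    rw [Algebra.smul_def, eq_ratCast, mul_comm]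
  rw [h3, map_smul, smul_eq_mul, mul_comm]

variable {V W : Type*} [AddCommGroup V] [Module K V] [FiniteDimensional K V] [AddCommGroup W]
  [Module K W] {M M' : Type*} [AddCommGroup M] [Module ℚ M] [AddCommGroup M'] [Module ℚ M']
  (β : M →ₗ[ℚ] M' →ₗ[ℚ] ℚ)

/-- The functional given by a cycle. -/
def bK (K : Type) [Field K] [CharZero K] (z : M) : M' → K := fun z' => ((β z z' : ℚ) : K)

/-- A basis of the space of functionals given by cycles. -/
lemma exists_basis (hfin : (Set.range (bK β K)).Finite ∨
      FiniteDimensional K (Submodule.span K (Set.range (bK β K)))) :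
    ∃ (ι : Type) (_ : Fintype ι) (z : ι → M),
      Fintype.card ι = finrank K (Submodule.span K (Set.range (bK β K))) ∧
      finrank ℚ (LinearMap.range β) = Fintype.card ι ∧
      ∀ x : M, ∃ q : ι → ℚ, β x = ∑ i, q i • β (z i) := by
  have hfd : FiniteDimensional K (Submodule.span K (Set.range (bK β K))) := by
    rcases hfin with h | h
    · exact FiniteDimensional.span_of_finite K h
    · exact h
  obtain ⟨b, hb, hspan, hli⟩ := exists_linearIndependent K (Set.range (bK β K))
  have hli' : LinearIndependent K (fun x : b => (⟨x.1, Submodule.subset_span (hb x.2)⟩ :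
      Submodule.span K (Set.range (bK β K)))) :=
    LinearIndependent.of_comp (Submodule.subtype _) hli
  have hbf : b.Finite := by
    have := hli'.finite
    exact Set.toFinite b
  have hbF := hbf.fintype
  obtain ⟨n, g, hginj, hg⟩ := hbf.fin_param
  have h1 : ∀ i, ∃ z : M, bK β K z = g i := fun i => hb (hg ▸ Set.mem_range_self i)
  choose z hz using h1
  -- linear independence
  have hliK : LinearIndependent K (fun i => bK β K (z i)) := by
    have h2 : (fun i => bK β K (z i)) = fun i => ((⟨g i, hg ▸ Set.mem_range_self i⟩ : b) :
        M' → K) := funext fun i => hz i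
    rw [h2]
    exact hli.comp (fun i => (⟨g i, hg ▸ Set.mem_range_self i⟩ : b)) (fun i j h =>
      hginj (congrArg Subtype.val h))
  have hliQ : LinearIndependent ℚ (fun i => β (z i)) := by
    rw [Fintype.linearIndependent_iff] at hliK ⊢
    intro q hq i
    have h3 := hliK (fun i => (q i : K)) (by
      ext z'
      have h4 := LinearMap.congr_fun hq z'
      simp only [LinearMap.sum_apply, LinearMap.smul_apply, smul_eq_mul,
        LinearMap.zero_apply] at h4
      simp only [Finset.sum_apply, Pi.smul_apply, smul_eq_mul, Pi.zero_apply, bK]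
      exact_mod_cast congrArg (Rat.cast : ℚ → K) h4) i
    exact_mod_cast h3
  -- spanning
  have hsp : ∀ x : M, β x ∈ Submodule.span ℚ (Set.range fun i => β (z i)) := by
    intro x
    by_contra hx
    have h5 : LinearIndependent ℚ (fun o : Option (Fin n) => o.elim (β x) (fun i => β (z i))) := by
      rw [linearIndependent_option]
      exact ⟨hliQ, hx⟩
    have h6 : LinearIndependent ℚ (fun o : Option (Fin n) => fun z' : M' =>
        (o.elim (β x) (fun i => β (z i))) z') := by
      have h7 := h5.map' (⟨⟨fun l : M' →ₗ[ℚ] ℚ => (fun z' => l z' : M' → ℚ), fun _ _ => rfl⟩,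
        fun _ _ => rfl⟩ : (M' →ₗ[ℚ] ℚ) →ₗ[ℚ] (M' → ℚ)) (by
          rw [LinearMap.ker_eq_bot]
          intro l l' h
          exact LinearMap.ext fun z' => congrFun h z')
      exact h7
    have h8 := linInd_cast (K := K) h6
    have h9 : (fun (o : Option (Fin n)) (z' : M') =>
        (((o.elim (β x) (fun i => β (z i))) z' : ℚ) : K)) =
        fun o : Option (Fin n) => o.elim (bK β K x) (fun i => bK β K (z i)) := by
      funext o
      rcases o with _ | i
      · rfl
      · rfl
    rw [h9, linearIndependent_option] at h8
    apply h8.2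
    have h10 : Set.range (fun i => bK β K (z i)) = b := by
      rw [← hg]
      congr 1
      exact funext fun i => hz i
    have h11 : (fun i : Fin n => (some i).elim (bK β K x) (fun i => bK β K (z i))) =
        fun i => bK β K (z i) := rfl
    change bK β K x ∈ Submodule.span K (Set.range fun i => bK β K (z i))
    rw [h10, hspan]
    exact Submodule.subset_span ⟨x, rfl⟩
  refine ⟨Fin n, inferInstance, z, ?_, ?_, ?_⟩
  · have h10 : Set.range (fun i => bK β K (z i)) = b := by
      rw [← hg]
      congr 1
      exact funext fun i => hz i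
    rw [← hspan, ← h10, finrank_span_eq_card hliK]
  · have h12 : LinearMap.range β = Submodule.span ℚ (Set.range fun i => β (z i)) := by
      apply le_antisymm
      · rintro _ ⟨x, rfl⟩
        exact hsp x
      · rw [Submodule.span_le]
        rintro _ ⟨i, rfl⟩
        exact ⟨z i, rfl⟩
    rw [h12, finrank_span_eq_card hliQ]
  · intro x
    obtain ⟨q, hq⟩ := (Submodule.mem_span_range_iff_exists_fun ℚ).1 (hsp x)
    exact ⟨q, hq.symm⟩

/-- **Tate's theorem**, linear algebra. -/
theorem tate (f : Module.End K V) (g : Module.End K W) (B : V →ₗ[K] W →ₗ[K] K)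
    (hB : ∀ a b, B (f a) (g b) = B a b) (c : M → V) (c' : M' → W)
    (hcadd : ∀ x y, c (x + y) = c x + c y) (hcq : ∀ (q : ℚ) x, c (q • x) = (q : K) • c x)
    (hc : ∀ z, f (c z) = c z) (hc' : ∀ z, g (c' z) = c' z)
    (hβ : ∀ z z', B (c z) (c' z') = (β z z' : K)) :
    finrank ℚ (LinearMap.range β) = finrank K (f.maxGenEigenspace 1) ↔
      (∀ a, f a = a → a ∈ Submodule.span K (Set.range c)) ∧ ∀ z, β z = 0 → c z = 0 := by
  set A : Submodule K V := Submodule.span K (Set.range c) with hA
  let θ : V →ₗ[K] (M' → K) := LinearMap.pi fun z' => B.flip (c' z')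
  have hθ : ∀ z, θ (c z) = bK β K z := fun z => funext fun z' => hβ z z'
  have hmap : A.map θ = Submodule.span K (Set.range (bK β K)) := by
    rw [hA, Submodule.map_span, ← Set.range_comp]
    congr 2
    exact funext fun z => hθ z
  have hfd : FiniteDimensional K (Submodule.span K (Set.range (bK β K))) := by
    rw [← hmap]
    infer_instance
  obtain ⟨ι, _, z, h1, h2, h3⟩ := exists_basis (K := K) β (Or.inr hfd)
  have hE : A ≤ f.eigenspace 1 := by
    rw [hA, Submodule.span_le]
    rintro _ ⟨x, rfl⟩
    rw [SetLike.mem_coe, Module.End.mem_eigenspace_iff, one_smul]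
    exact hc x
  have hG : f.eigenspace 1 ≤ f.maxGenEigenspace 1 := by
    intro a ha
    rw [Module.End.mem_eigenspace_iff, one_smul] at ha
    rw [Module.End.mem_maxGenEigenspace]
    refine ⟨1, ?_⟩
    rw [pow_one, one_smul, LinearMap.sub_apply, Module.End.one_apply, ha, sub_self]
  have hle1 : finrank K (A.map θ) ≤ finrank K A := Submodule.finrank_map_le θ A
  have hle2 := Submodule.finrank_mono hE
  have hle3 := Submodule.finrank_mono hG
  have hρ : finrank ℚ (LinearMap.range β) = finrank K (A.map θ) := by rw [h2, h1, hmap]
  -- injectivity on `A`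
  have hinj : finrank K (A.map θ) = finrank K A → ∀ a ∈ A, θ a = 0 → a = 0 := by
    intro h a ha h0
    have h4 := LinearMap.finrank_range_add_finrank_ker (θ.domRestrict A)
    have h5 : LinearMap.range (θ.domRestrict A) = A.map θ := by
      rw [LinearMap.range_domRestrict]
    rw [h5, h] at h4
    have h6 : finrank K (LinearMap.ker (θ.domRestrict A)) = 0 := by omega
    rw [Submodule.finrank_eq_zero] at h6
    have h7 : (⟨a, ha⟩ : A) ∈ LinearMap.ker (θ.domRestrict A) := h0
    rw [h6, Submodule.mem_bot] at h7
    exact congrArg Subtype.val h7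
  rw [hρ]
  constructor
  · intro h
    have h4 : finrank K A = finrank K (f.eigenspace 1) := by omega
    have h5 : A = f.eigenspace 1 := Submodule.eq_of_le_of_finrank_eq hE h4
    refine ⟨fun a ha => ?_, fun x hx => ?_⟩
    · rw [h5, Module.End.mem_eigenspace_iff, one_smul]
      exact ha
    · refine hinj (by omega) (c x) (Submodule.subset_span ⟨x, rfl⟩) ?_
      rw [hθ]
      funext z'
      rw [bK, hx, LinearMap.zero_apply, Rat.cast_zero]
      rfl
  · rintro ⟨hT, hD⟩
    have hsub : ∀ x y, c (x - y) = c x - c y := by
      intro x y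
      have h4 := hcadd (x - y) y
      rw [sub_add_cancel] at h4
      rw [h4, add_sub_cancel_right]
    have hsum : ∀ q : ι → ℚ, c (∑ i, q i • z i) = ∑ i, (q i : K) • c (z i) := by
      intro q
      let cc : M →+ V := AddMonoidHom.mk' c hcadd
      have h4 : c (∑ i, q i • z i) = cc (∑ i, q i • z i) := rfl
      rw [h4, map_sum]
      exact Finset.sum_congr rfl fun i _ => hcq _ _
    have hAz : A = Submodule.span K (Set.range fun i => c (z i)) := by
      apply le_antisymm
      · rw [hA, Submodule.span_le]
        rintro _ ⟨x, rfl⟩
        obtain ⟨q, hq⟩ := h3 x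
        have h4 := hD (x - ∑ i, q i • z i) (by
          rw [map_sub, map_sum, hq, sub_eq_zero]
          exact Finset.sum_congr rfl fun i _ => (map_smul β _ _).symm)
        rw [hsub, hsum, sub_eq_zero] at h4
        rw [SetLike.mem_coe, h4]
        exact Submodule.sum_mem _ fun i _ =>
          Submodule.smul_mem _ _ (Submodule.subset_span ⟨i, rfl⟩)
      · rw [Submodule.span_le]
        rintro _ ⟨i, rfl⟩
        exact Submodule.subset_span ⟨_, rfl⟩
    have h5 : finrank K A ≤ Fintype.card ι := by
      rw [hAz]
      exact finrank_range_le_card _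
    have h6 : finrank K (A.map θ) = finrank K A := by
      rw [hmap] at hle1 ⊢
      omega
    have h7 := hinj h6
    have h8 : f.eigenspace 1 = A := le_antisymm (fun a ha => by
      rw [Module.End.mem_eigenspace_iff, one_smul] at ha
      exact hT a ha) hE
    have key : ∀ (m : ℕ) (a : V), ((f - (1 : K) • (1 : Module.End K V)) ^ m) a = 0 →
        a ∈ f.eigenspace 1 := by
      intro m
      induction m with
      | zero =>
        intro a hm
        rw [pow_zero, Module.End.one_apply] at hm
        rw [hm]
        exact Submodule.zero_mem _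
      | succ m ih =>
        intro a hm
        rw [pow_succ, Module.End.mul_apply] at hm
        have h10 := ih _ hm
        rw [h8] at h10
        have h11 := h7 _ h10 (by
          funext z'
          change B ((f - (1 : K) • (1 : Module.End K V)) a) (c' z') = 0
          rw [one_smul, LinearMap.sub_apply, Module.End.one_apply, map_sub, LinearMap.sub_apply,
            sub_eq_zero]
          conv_lhs => rw [← hc' z']
          exact hB _ _)
        rw [Module.End.mem_eigenspace_iff, one_smul]
        rw [one_smul, LinearMap.sub_apply, Module.End.one_apply, sub_eq_zero] at h11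
        exact h11
    have h9 : f.maxGenEigenspace 1 ≤ f.eigenspace 1 := by
      intro a ha
      rw [Module.End.mem_maxGenEigenspace] at ha
      obtain ⟨m, hm⟩ := ha
      exact key m a hm
    rw [le_antisymm h9 hG, h8]
    exact h6

end Pool.Agent.Y121.GT.Lin
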