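import Pool.Agent.Y121.TP.Lin

/-!
# Endomorphisms over two fields with the same rational power sums
-/

namespace Pool.Agent.Y121.GT.Lin

open Module Polynomial Pool.Agent.Y121.CF

variable {k₁ k₂ : Type} [Field k₁] [CharZero k₁] [Field k₂] [CharZero k₂]

/-- Power series with the same rational logarithmic derivative and constant term one. -/
theorem rat_of_log2 {F₁ U₁ : PowerSeries k₁} {F₂ U₂ : PowerSeries k₂}
    (h₁ : PowerSeries.derivative k₁ F₁ = -(F₁ * U₁)) (h₁0 : PowerSeries.coeff 0 F₁ = 1)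
    (h₂ : PowerSeries.derivative k₂ F₂ = -(F₂ * U₂)) (h₂0 : PowerSeries.coeff 0 F₂ = 1)
    (hU : ∀ n, ∃ q : ℚ, PowerSeries.coeff n U₁ = (q : k₁) ∧ PowerSeries.coeff n U₂ = (q : k₂))
    (n : ℕ) : ∃ q : ℚ, PowerSeries.coeff n F₁ = (q : k₁) ∧ PowerSeries.coeff n F₂ = (q : k₂) := by
  induction n using Nat.strong_induction_on with
  | _ n ih =>
    rcases n with _ | n
    · exact ⟨1, by rw [h₁0, Rat.cast_one], by rw [h₂0, Rat.cast_one]⟩
    · have e1 := congrArg (PowerSeries.coeff n) h₁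
      have e2 := congrArg (PowerSeries.coeff n) h₂
      rw [PowerSeries.coeff_derivative, map_neg, PowerSeries.coeff_mul] at e1 e2
      have h3 : ∀ p ∈ Finset.HasAntidiagonal.antidiagonal n, ∃ q : ℚ,
          PowerSeries.coeff p.1 F₁ * PowerSeries.coeff p.2 U₁ = (q : k₁) ∧
          PowerSeries.coeff p.1 F₂ * PowerSeries.coeff p.2 U₂ = (q : k₂) := by
        intro p hp
        rw [Finset.HasAntidiagonal.mem_antidiagonal] at hp
        obtain ⟨a, ha, ha'⟩ := ih p.1 (by omega)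
        obtain ⟨b, hb, hb'⟩ := hU p.2
        exact ⟨a * b, by rw [ha, hb, Rat.cast_mul], by rw [ha', hb', Rat.cast_mul]⟩
      choose! f hf using h3
      have s1 : (∑ p ∈ Finset.HasAntidiagonal.antidiagonal n,
          PowerSeries.coeff p.1 F₁ * PowerSeries.coeff p.2 U₁) =
          ((∑ p ∈ Finset.HasAntidiagonal.antidiagonal n, f p : ℚ) : k₁) := by
        rw [Rat.cast_sum]
        exact Finset.sum_congr rfl fun p hp => (hf p hp).1
      have s2 : (∑ p ∈ Finset.HasAntidiagonal.antidiagonal n,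
          PowerSeries.coeff p.1 F₂ * PowerSeries.coeff p.2 U₂) =
          ((∑ p ∈ Finset.HasAntidiagonal.antidiagonal n, f p : ℚ) : k₂) := by
        rw [Rat.cast_sum]
        exact Finset.sum_congr rfl fun p hp => (hf p hp).2
      rw [s1] at e1
      rw [s2] at e2
      have h4 : ((n : k₁) + 1) ≠ 0 := by exact_mod_cast Nat.succ_ne_zero n
      have h4' : ((n : k₂) + 1) ≠ 0 := by exact_mod_cast Nat.succ_ne_zero n
      refine ⟨-(∑ p ∈ Finset.HasAntidiagonal.antidiagonal n, f p) / (n + 1), ?_, ?_⟩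
      · rw [Rat.cast_div, Rat.cast_neg, Rat.cast_add, Rat.cast_one, Rat.cast_natCast,
          eq_div_iff h4, e1]
      · rw [Rat.cast_div, Rat.cast_neg, Rat.cast_add, Rat.cast_one, Rat.cast_natCast,
          eq_div_iff h4', e2]

theorem charpoly_common {V₁ V₂ : Type*} [AddCommGroup V₁] [Module k₁ V₁] [Module.Finite k₁ V₁]
    [AddCommGroup V₂] [Module k₂ V₂] [Module.Finite k₂ V₂] (f₁ : Module.End k₁ V₁)
    (f₂ : Module.End k₂ V₂) (h : ∀ n : ℕ, ∃ q : ℚ, LinearMap.trace k₁ V₁ (f₁ ^ n) = (q : k₁) ∧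
      LinearMap.trace k₂ V₂ (f₂ ^ n) = (q : k₂)) :
    ∃ P : ℚ[X], f₁.charpoly = P.map (algebraMap ℚ k₁) ∧
      f₂.charpoly = P.map (algebraMap ℚ k₂) := by
  classical
  -- the dimensions
  have hdim : Module.finrank k₁ V₁ = Module.finrank k₂ V₂ := by
    obtain ⟨q, h1, h2⟩ := h 0
    rw [pow_zero, LinearMap.trace_one] at h1 h2
    have h3 : ((Module.finrank k₁ V₁ : ℚ) : k₁) = (q : k₁) := by rw [Rat.cast_natCast, h1]
    have h4 : ((Module.finrank k₂ V₂ : ℚ) : k₂) = (q : k₂) := by rw [Rat.cast_natCast, h2]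
    have h5 := Rat.cast_injective h3
    have h6 := Rat.cast_injective h4
    exact_mod_cast h5.trans h6.symm
  set b₁ := Module.finBasis k₁ V₁
  set b₂ := Module.finBasis k₂ V₂
  set M₁ := LinearMap.toMatrix b₁ b₁ f₁ with hM₁
  set M₂ := LinearMap.toMatrix b₂ b₂ f₂ with hM₂
  have h10 : PowerSeries.coeff 0 (M₁.charpolyRev : PowerSeries k₁) = 1 := by
    rw [Polynomial.coeff_coe, constCoeff_rev]
  have h20 : PowerSeries.coeff 0 (M₂.charpolyRev : PowerSeries k₂) = 1 := by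
    rw [Polynomial.coeff_coe, constCoeff_rev]
  have hrat := rat_of_log2 (deriv_charpolyRev M₁) h10 (deriv_charpolyRev M₂) h20 (by
    intro n
    obtain ⟨q, hq1, hq2⟩ := h (n + 1)
    refine ⟨q, ?_, ?_⟩
    · rw [ps, PowerSeries.coeff_mk, ← hq1, LinearMap.trace_eq_matrix_trace k₁ b₁,
        LinearMap.toMatrix_pow]
    · rw [ps, PowerSeries.coeff_mk, ← hq2, LinearMap.trace_eq_matrix_trace k₂ b₂,
        LinearMap.toMatrix_pow])
  have hdeg : M₁.charpoly.natDegree = M₂.charpoly.natDegree := by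
    rw [Matrix.charpoly_natDegree_eq_dim, Matrix.charpoly_natDegree_eq_dim, Fintype.card_fin,
      Fintype.card_fin, hdim]
  have h1 : ∀ n, ∃ q : ℚ, f₁.charpoly.coeff n = (q : k₁) ∧ f₂.charpoly.coeff n = (q : k₂) := by
    intro n
    obtain ⟨q, hq1, hq2⟩ := hrat (revAt M₁.charpoly.natDegree n)
    refine ⟨q, ?_, ?_⟩
    · rw [← hq1, Polynomial.coeff_coe, ← Matrix.reverse_charpoly, coeff_reverse, revAt_invol, hM₁,
        LinearMap.charpoly_toMatrix]
    · rw [← hq2, hdeg, Polynomial.coeff_coe, ← Matrix.reverse_charpoly, coeff_reverse,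
        revAt_invol, hM₂, LinearMap.charpoly_toMatrix]
  choose r hr1 hr2 using h1
  have h3 : f₁.charpoly ∈ lifts (algebraMap ℚ k₁) := by
    rw [lifts_iff_coeff_lifts]
    intro n
    exact ⟨r n, by rw [hr1, eq_ratCast]⟩
  obtain ⟨P, hP⟩ := (mem_lifts _).1 h3
  refine ⟨P, hP.symm, ?_⟩
  ext n
  rw [hr2, coeff_map, eq_ratCast]
  have h4 : P.coeff n = r n := by
    have h5 : (algebraMap ℚ k₁) (P.coeff n) = (r n : k₁) := by
      rw [← coeff_map, hP, hr1]
    rw [eq_ratCast] at h5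
    exact Rat.cast_injective h5
  rw [h4]

/-- The multiplicities of the eigenvalue one are equal. -/
theorem mult_eq {V₁ V₂ : Type*} [AddCommGroup V₁] [Module k₁ V₁] [Module.Finite k₁ V₁]
    [AddCommGroup V₂] [Module k₂ V₂] [Module.Finite k₂ V₂] (f₁ : Module.End k₁ V₁)
    (f₂ : Module.End k₂ V₂) (h : ∀ n : ℕ, ∃ q : ℚ, LinearMap.trace k₁ V₁ (f₁ ^ n) = (q : k₁) ∧
      LinearMap.trace k₂ V₂ (f₂ ^ n) = (q : k₂)) :
    finrank k₁ (f₁.maxGenEigenspace 1) = finrank k₂ (f₂.maxGenEigenspace 1) := by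
  obtain ⟨P, h1, h2⟩ := charpoly_common f₁ f₂ h
  rw [LinearMap.finrank_maxGenEigenspace_eq, LinearMap.finrank_maxGenEigenspace_eq, h1, h2]
  have e1 := Polynomial.eq_rootMultiplicity_map (p := P) (algebraMap ℚ k₁).injective 1
  have e2 := Polynomial.eq_rootMultiplicity_map (p := P) (algebraMap ℚ k₂).injective 1
  rw [map_one] at e1 e2
  rw [← e1, ← e2]

end Pool.Agent.Y121.GT.Lin
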