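import Pool.Agent.Y121.GT.Defs
import Pool.Agent.Y121.TP.Main
import Pool.Agent.Y121.NK.Sign
import Pool.Agent.Y121.FD.Hodge

/-!
# The noncommutative Tate conjecture for direct summands
-/

open CategoryTheory AlgebraicGeometry

universe u v

namespace Pool.Agent.Y121.GT

open Pool.Agent.H914 Pool.Agent.H914.VarClass Pool.Agent.H914.VarClass.Obj Pool.Agent.W492.BB
  Pool.Agent.W550.Corr Pool.Agent.TH133 Pool.Agent.Y121.NK Pool.Agent.Y121.TP

set_option linter.unusedSectionVars false

section general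

variable {k : Type u} [Field k] {𝒱 : VarClass k} {C : TheoryData.{u, v, 0} 𝒱 ℚ}
  [hC : IsChowProj C] {K : Type} [Field K] {H : WeilTheoryData.{u, v, 0} C K}
  [hH : IsWeilProj H] {X : 𝒱.Obj}

include hC hH

/-- The components of the class of a cycle. -/
lemma cmpH_cl (z : C.A X) (i : ℤ) : cmpH H X (2 * i) (H.cl z) = H.cl (cmp C X i z) := by
  conv_lhs => rw [← sum_cmp z]
  rw [map_sum, map_sum]
  have h1 : ∀ j, j ≠ i → cmpH H X (2 * i) (H.cl (cmp C X j z)) = 0 := by
    intro j hj
    exact cmpH_ne H (hH.isClassMap.cl_mem (cmp_mem j z)) (by omega)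
  by_cases hi : i ∈ Finset.Icc (0 : ℤ) X.dim
  · rw [Finset.sum_eq_single_of_mem i hi (fun j _ hj => h1 j hj)]
    exact cmpH_self H (hH.isClassMap.cl_mem (cmp_mem i z))
  · rw [Finset.sum_eq_zero fun j hj => h1 j (fun h => hi (h ▸ hj))]
    have h2 : cmp C X i z = 0 := by
      have h3 := cmp_mem (C := C) i z
      rw [Finset.mem_Icc] at hi
      by_cases h0 : 0 ≤ i
      · exact hC.gr_top X i _ h3 (by omega)
      · rw [C.gr_neg X i (by omega)] at h3
        exact (Submodule.mem_bot _).1 h3
    rw [h2, map_zero]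

lemma cl_act (x : C.A (X.prod X)) (z : C.A X) :
    H.cl (C.act x z) = H.act (H.cl x) (H.cl z) := by
  rw [TheoryData.act_apply, H.cl_push, map_mul, H.cl_pull, TheoryData.act_apply]

lemma actH_congr {x y : Cor C X} (h : x - y ∈ homI H X) (a : H.A X) :
    actH C X H x a = actH C X H y a := by
  rw [(actH_eq_iff H).2 h]

/-- The transfer, for a family `S` of subspaces stable under correspondences, and a space `A` of
algebraic classes. -/
theorem transfer (S : ℤ → Submodule K (H.A X)) (A : Submodule K (H.A X))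
    (hS : ∀ i, S i ≤ H.gr X (2 * i))
    (hst : ∀ (x : Cor C X) (i j : ℤ) (a : H.A X), (grading C X).pr j x = x → a ∈ S i →
      actH C X H x a ∈ S (i + j))
    (hA : ∀ (x : Cor C X) (a : H.A X), a ∈ A → actH C X H x a ∈ A)
    {e p u v : Cor C X} (hp : (grading C X).pr 0 p = p)
    (huv : u * v - e ∈ homI H X) (hvu : v * u - p ∈ homI H X) :
    (∀ a ∈ ⨆ i : ℤ, S i, actH C X H e a = a → a ∈ A) ↔
      ∀ i : ℤ, ∀ a ∈ S i, actH C X H p a = a → a ∈ A := by
  have hUV : ∀ a, actH C X H u (actH C X H v a) = actH C X H e a := by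
    intro a
    rw [← actH_congr huv a, map_mul]
    rfl
  have hVU : ∀ a, actH C X H v (actH C X H u a) = actH C X H p a := by
    intro a
    rw [← actH_congr hvu a, map_mul]
    rfl
  have hall : ∀ (x : Cor C X) {a : H.A X}, a ∈ ⨆ i : ℤ, S i →
      actH C X H x a ∈ ⨆ i : ℤ, S i := by
    intro x a ha
    have h1 : (⨆ i : ℤ, S i) ≤ (⨆ i : ℤ, S i).comap (actH C X H x) := by
      refine iSup_le fun i b hb => ?_
      rw [Submodule.mem_comap, ← (grading C X).sum_pr x, map_sum, LinearMap.sum_apply]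
      refine Submodule.sum_mem _ fun j _ => ?_
      exact (le_iSup (fun i : ℤ => S i) (i + j)) (hst _ i j b ((grading C X).pr_self j x) hb)
    exact h1 ha
  have hcmp : ∀ {a : H.A X}, a ∈ ⨆ i : ℤ, S i → ∀ i : ℤ, cmpH H X (2 * i) a ∈ S i := by
    intro a ha i
    have h1 : (⨆ i : ℤ, S i) ≤ (S i).comap (cmpH H X (2 * i)) := by
      refine iSup_le fun j b hb => ?_
      rw [Submodule.mem_comap]
      by_cases hij : i = j
      · subst hij
        rw [cmpH_self H (hS _ hb)]
        exact hb
      · rw [cmpH_ne H (hS _ hb) (by omega)]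
        exact Submodule.zero_mem _
    exact h1 ha
  have hout : ∀ {i : ℤ} {b : H.A X}, b ∈ H.gr X (2 * i) → i ∉ Finset.Icc (0 : ℤ) X.dim →
      b = 0 := by
    intro i b hb hi
    by_contra h4
    rw [Finset.mem_Icc] at hi
    have h5 := nonneg_of_mem H hb h4
    rw [gr_top H (by omega : 2 * (X.dim : ℤ) < 2 * i)] at hb
    exact h4 ((Submodule.mem_bot _).1 hb)
  have hsum : ∀ {a : H.A X}, a ∈ ⨆ i : ℤ, S i →
      ∑ i ∈ Finset.Icc (0 : ℤ) X.dim, cmpH H X (2 * i) a = a := by
    intro a ha
    have h1 : (⨆ i : ℤ, S i) ≤ LinearMap.eqLocus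
        (∑ i ∈ Finset.Icc (0 : ℤ) X.dim, cmpH H X (2 * i)) LinearMap.id := by
      refine iSup_le fun j b hb => ?_
      rw [LinearMap.mem_eqLocus, LinearMap.sum_apply, LinearMap.id_apply]
      by_cases hj : j ∈ Finset.Icc (0 : ℤ) X.dim
      · rw [Finset.sum_eq_single_of_mem j hj]
        · exact cmpH_self H (hS _ hb)
        · intro i _ hi
          exact cmpH_ne H (hS _ hb) (by omega)
      · rw [hout (hS _ hb) hj]
        exact Finset.sum_eq_zero fun i _ => map_zero _
    have h2 := h1 ha
    rw [LinearMap.mem_eqLocus, LinearMap.sum_apply, LinearMap.id_apply] at h2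
    exact h2
  constructor
  · intro hE i a ha hpa
    have ha' : a ∈ ⨆ i : ℤ, S i := (le_iSup (fun i : ℤ => S i) i) ha
    have h1 := hE (actH C X H u a) (hall u ha') (by rw [← hUV, hVU, hpa])
    rw [← hpa, ← hVU]
    exact hA v _ h1
  · intro hP a ha hea
    set b := actH C X H v a with hb
    have hbA : b ∈ ⨆ i : ℤ, S i := hall v ha
    have hpb : actH C X H p b = b := by
      rw [hb, ← hVU, hUV, hea]
    have hpi : ∀ i : ℤ, actH C X H p (cmpH H X (2 * i) b) = cmpH H X (2 * i) b := by
      intro i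
      conv_rhs => rw [← hpb, ← hsum hbA, map_sum, map_sum]
      have h1 : ∀ j : ℤ, actH C X H p (cmpH H X (2 * j) b) ∈ H.gr X (2 * j) := by
        intro j
        have := actH_shift H hp (hS _ (hcmp hbA j))
        rwa [mul_zero, add_zero] at this
      by_cases hi : i ∈ Finset.Icc (0 : ℤ) X.dim
      · rw [Finset.sum_eq_single_of_mem i hi]
        · rw [cmpH_self H (h1 i)]
        · intro j _ hj
          exact cmpH_ne H (h1 j) (by omega)
      · rw [Finset.sum_eq_zero fun j hj => cmpH_ne H (h1 j) (fun h => hi (by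
          have : j = i := by omega
          exact this ▸ hj))]
        rw [hout (hS _ (hcmp hbA i)) hi, map_zero]
    have h1 : b ∈ A := by
      rw [← hsum hbA]
      exact Submodule.sum_mem _ fun i _ => hP i _ (hcmp hbA i) (hpi i)
    rw [← hea, ← hUV]
    exact hA u _ h1

end general

section tate

variable {k : Type u} [Field k] {𝒱 : VarClass k} {C : TheoryData.{u, v, 0} 𝒱 ℚ}
  [hC : IsChowProj C] {K : Type} [Field K] [CharZero K] {H : WeilTheoryData.{u, v, 0} C K}
  [hH : IsWeilProj H] {X : 𝒱.Obj}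

include hC hH

variable [FiniteDimensional K (H.A X)] {q : ℕ} {φ : X ⟶ X}

/-- Tate classes are stable under correspondences. -/
lemma act_tate (hφ : IsFrob H q φ) {n : ℕ} {j : ℤ} {x : Cor C X}
    (hx : (grading C X).pr j x = x) {i : ℤ} {a : H.A X} (ha : a ∈ tate H q φ n i) :
    actH C X H x a ∈ tate H q φ n (i + j) := by
  obtain ⟨h1, h2⟩ := ha
  rw [SetLike.mem_coe, Module.End.mem_eigenspace_iff] at h2
  have hq : (q : K) ≠ 0 := q_ne H hφ
  refine ⟨?_, ?_⟩
  · have h3 := actH_shift H hx h1
    have h4 : 2 * i + 2 * j = 2 * (i + j) := by ring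
    rw [h4] at h3
    exact h3
  · rw [SetLike.mem_coe, Module.End.mem_eigenspace_iff]
    have key : ∀ m : ℕ, ((H.pull φ).toLinearMap ^ m) (actH C X H x a) =
        ((q : K) ^ j) ^ m • actH C X H x (((H.pull φ).toLinearMap ^ m) a) := by
      intro m
      induction m with
      | zero => rw [pow_zero, pow_zero, one_smul]; rfl
      | succ m ih =>
        rw [pow_succ', Module.End.mul_apply, Module.End.mul_apply, ih, map_smul]
        change ((q : K) ^ j) ^ m • H.pull φ (actH C X H x _) = _
        rw [frob_act H hφ hx, smul_smul, pow_succ]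
        rfl
    rw [key, h2, map_smul, smul_smul]
    congr 1
    rw [zpow_add₀ hq, mul_pow]
    ring

/-- The even part of a noncommutative motive over a finite field is algebraic. -/
lemma signNC (hφ : IsFrob H q φ) (e : Cor C X) : SignNC H (cA C X e) := by
  classical
  -- the cyclotomic Frobenius
  have hF : ∃ F : H.A X →ₗ[K] H.A X, IsCycFrob H q φ 0 F := by
    refine ⟨∑ i ∈ Finset.Icc (0 : ℤ) X.dim,
      ((q : K) ^ i)⁻¹ • ((H.pull φ).toLinearMap ∘ₗ cmpH H X (2 * i)), fun i a ha => ?_⟩
    rw [LinearMap.sum_apply]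
    rw [add_zero] at ha
    by_cases hi : i ∈ Finset.Icc (0 : ℤ) X.dim
    · rw [Finset.sum_eq_single_of_mem i hi]
      · rw [LinearMap.smul_apply, LinearMap.comp_apply, cmpH_self H ha]
        rfl
      · intro j _ hj
        rw [LinearMap.smul_apply, LinearMap.comp_apply, cmpH_ne H ha (by omega), map_zero,
          smul_zero]
    · have h0 : a = 0 := by
        by_contra h4
        rw [Finset.mem_Icc] at hi
        have h5 := nonneg_of_mem H ha h4
        have ha' : a ∈ H.gr X (2 * i) := ha
        rw [gr_top H (by omega : 2 * (X.dim : ℤ) < 2 * i)] at ha'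
        exact h4 ((Submodule.mem_bot _).1 ha')
      subst h0
      rw [TheoryData.up, map_zero, smul_zero]
      exact Finset.sum_eq_zero fun j _ => map_zero _
  obtain ⟨F, hF⟩ := hF
  obtain ⟨x, hx⟩ := exists_pow_cor H hφ hF 0
  refine ⟨cA C X (e * x), (actsAsEvenPart_iff H).2 ?_⟩
  rw [map_mul, hx, pow_zero]
  have h1 : (1 : Module.End K (H.A X)) ∘ₗ prj H X 0 = evP H X := by
    apply LinearMap.ext
    intro a
    rw [LinearMap.comp_apply, Module.End.one_apply, prj, evP, zpow_zero, one_smul]
  rw [h1]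
  rfl

/-- The main theorem. -/
theorem tate_main (hcomm : GradedComm H) [FiniteDimensional K (H.A (X.prod X))]
    (hφ : IsFrob H q φ) {T : Tower H} (hT : IsTower T) {e : C.A (X.prod X)}
    (he : HomEq H (C.comp e e) e) :
    ∃ p : C.A (X.prod X), C.Deg X.dim p ∧ HomEq H (C.comp p p) p ∧ HomIsoK H e p ∧
      ∀ n, NCTate T q φ n e ↔ MotTate T q φ n p := by
  obtain ⟨y, rfl⟩ : ∃ y : Cor C X, cA C X y = e := ⟨e, rfl⟩
  have he' : y * y - y ∈ homI H X := (homEq_iff H).1 he
  obtain ⟨p, u, v, h1, h2, h3, h4, -, -⟩ := (sign_main' H hcomm X y he').1 (signNC hφ y)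
  have h5 := h1
  rw [grading_pr, prC_iff, add_zero] at h5
  refine ⟨cA C X p, h5, (homEq_iff H).2 h2, ⟨cA C X u, cA C X v, (homEq_iff H).2 h3,
    (homEq_iff H).2 h4⟩, fun n => ?_⟩
  have hCn := hT.isChow n
  have hWn := hT.isWeil n
  -- the classes of the cycles over the extension
  set A : Submodule K (H.A X) :=
    Submodule.span K (Set.range fun z : (T.CC n).A X => T.cl n X z) with hA
  have hcl : ∀ (x : Cor C X) (z : (T.CC n).A X),
      T.cl n X ((T.CC n).act (T.bc n (X.prod X) (cA C X x)) z) = actH C X H x (T.cl n X z) := by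
    intro x z
    have h6 := cl_act (H := T.lvl n) (T.bc n (X.prod X) (cA C X x)) z
    have h7 : (T.lvl n).cl (T.bc n (X.prod X) (cA C X x)) = H.cl (cA C X x) :=
      hT.cl_bc n (X.prod X) (cA C X x)
    rw [h7] at h6
    exact h6
  have hAst : ∀ (x : Cor C X) (a : H.A X), a ∈ A → actH C X H x a ∈ A := by
    intro x a ha
    have h6 : A ≤ A.comap (actH C X H x) := by
      rw [hA, Submodule.span_le]
      rintro _ ⟨z, rfl⟩
      rw [SetLike.mem_coe, Submodule.mem_comap]
      dsimp only
      rw [← hcl]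
      exact Submodule.subset_span ⟨_, rfl⟩
    exact h6 ha
  have key := transfer (H := H) (fun i => tate H q φ n i) A (fun i a ha => ha.1)
    (fun x i j a hx ha => act_tate hφ hx ha) hAst h1 h3 h4
  -- the two formulations
  have hsub : ∀ x : Cor C X, Submodule.span K (Set.range fun z : (T.CC n).A X =>
      T.cl n X ((T.CC n).act (T.bc n (X.prod X) (cA C X x)) z)) = A.map (actH C X H x) := by
    intro x
    rw [hA, Submodule.map_span, ← Set.range_comp]
    congr 1
    ext b
    simp only [Set.mem_range, Function.comp_apply, hcl]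
  have hE : NCTate T q φ n (cA C X y) ↔
      ∀ a ∈ ⨆ i : ℤ, tate H q φ n i, actH C X H y a = a → a ∈ A := by
    constructor
    · intro h a ha hya
      have h6 := h a ha hya
      rw [hsub] at h6
      obtain ⟨b, hb, rfl⟩ := h6
      exact hAst y b hb
    · intro h a ha hya
      rw [hsub]
      exact ⟨a, h a ha hya, hya⟩
  have hP : MotTate T q φ n (cA C X p) ↔
      ∀ i : ℤ, ∀ a ∈ tate H q φ n i, actH C X H p a = a → a ∈ A := by
    constructor
    · intro h i a ha hpa
      have h6 := h i a ha hpa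
      have h7 : Submodule.span K {b | ∃ z : (T.CC n).A X, (T.CC n).Deg i z ∧
          b = T.cl n X ((T.CC n).act (T.bc n (X.prod X) (cA C X p)) z)} ≤ A := by
        rw [Submodule.span_le]
        rintro b ⟨z, -, rfl⟩
        exact Submodule.subset_span ⟨_, rfl⟩
      exact h7 h6
    · intro h i a ha hpa
      have h6 := h i a ha hpa
      have h7 : A ≤ (Submodule.span K {b | ∃ z : (T.CC n).A X, (T.CC n).Deg i z ∧
          b = T.cl n X ((T.CC n).act (T.bc n (X.prod X) (cA C X p)) z)}).comap
            (actH C X H p ∘ₗ cmpH H X (2 * i)) := by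
        rw [hA, Submodule.span_le]
        rintro _ ⟨z, rfl⟩
        rw [SetLike.mem_coe, Submodule.mem_comap, LinearMap.comp_apply]
        dsimp only
        have h8 : cmpH H X (2 * i) (T.cl n X z) = T.cl n X (cmp (T.CC n) X i z) :=
          cmpH_cl (H := T.lvl n) z i
        rw [h8, ← hcl]
        exact Submodule.subset_span ⟨_, cmp_mem i z, rfl⟩
      have h8 := h7 h6
      have hpa' : actH C X H p a = a := hpa
      rw [Submodule.mem_comap, LinearMap.comp_apply, cmpH_self H ha.1, hpa'] at h8
      exact h8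
  rw [hE, hP]
  exact key

end tate

end Pool.Agent.Y121.GT
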