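import Pool.Agent.Y121.GT.IDefs
import Pool.Agent.Y121.GT.Lin
import Pool.Agent.Y121.GT.Lin2
import Pool.Agent.Y121.GT.Main

/-!
# The Tate conjecture for direct summands: strong form and independence of the prime
-/

open CategoryTheory AlgebraicGeometry Polynomial

universe u v

namespace Pool.Agent.Y121.GT

open Pool.Agent.H914 Pool.Agent.H914.VarClass Pool.Agent.H914.VarClass.Obj Pool.Agent.W492.BB
  Pool.Agent.W550.Corr Pool.Agent.TH133 Pool.Agent.Y121.NK Pool.Agent.Y121.TP

set_option linter.unusedSectionVars false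

variable {k : Type u} [Field k] {𝒱 : VarClass k} {C : TheoryData.{u, v, 0} 𝒱 ℚ}
  [hC : IsChowProj C]

section pow

variable {K : Type} [Field K] [CharZero K] (H : WeilTheoryData.{u, v, 0} C K)
  [hH : IsWeilProj H] {X : 𝒱.Obj} [FiniteDimensional K (H.A X)]

include hC hH

/-- The polynomial in Frobenius which gives the powers of the cyclotomic Frobenius. -/
noncomputable def vpoly (q : ℕ) (n : ℤ) (m : ℕ) (s : Finset ℤ) (t : ℤ → ℚ[X]) : ℚ[X] :=
  ∑ w ∈ s.filter (fun w => Even (w - n)),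
    Polynomial.C ((((q : ℚ) ^ ((w - n) / 2))⁻¹) ^ m) * Polynomial.X ^ m * t w

/-- The powers of the cyclotomic Frobenius on `TP_n(X)` are algebraic. -/
theorem pow_cor_core {q : ℕ} {φ : X ⟶ X} (hφ : IsFrob H q φ) {n : ℤ} {F : H.A X →ₗ[K] H.A X}
    (hF : IsCycFrob H q φ n F) (m : ℕ) (P t : ℤ → ℚ[X])
    (hP : ∀ w, ∃ P', (frobH H φ w).charpoly = P'.map (algebraMap ℚ K) ∧ P' ∣ P w)
    (ht : ∀ i ∈ Finset.Icc (0 : ℤ) (2 * X.dim), (P i ∣ t i - 1) ∧
      ∀ j ∈ Finset.Icc (0 : ℤ) (2 * X.dim), j ≠ i → P j ∣ t i) :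
    actH C X H (aeval (gam C φ) (vpoly q n m (Finset.Icc (0 : ℤ) (2 * X.dim)) t)) =
      (F ^ m) ∘ₗ prj H X n := by
  classical
  set s := Finset.Icc (0 : ℤ) (2 * X.dim) with hs
  rw [actH_aeval, vpoly]
  apply ext_gr H
  intro w a ha
  by_cases ha0 : a = 0
  · rw [ha0, map_zero, map_zero]
  have hws := mem_Icc_of_ne H ha ha0
  obtain ⟨P', hP', hdvd⟩ := hP w
  have ht0 : ∀ w' ∈ s, w' ≠ w →
      aeval (H.pull φ).toLinearMap ((t w').map (algebraMap ℚ K)) a = 0 := by
    intro w' hw' hne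
    exact charpoly_gr H φ ha hP' (hdvd.trans ((ht w' hw').2 w hws hne.symm))
  have ht1 : aeval (H.pull φ).toLinearMap ((t w).map (algebraMap ℚ K)) a = a := by
    have h1 := charpoly_gr H φ ha hP' (hdvd.trans (ht w hws).1)
    rw [Polynomial.map_sub, Polynomial.map_one, map_sub, map_one, LinearMap.sub_apply,
      Module.End.one_apply, sub_eq_zero] at h1
    exact h1
  have hterm : ∀ w' : ℤ, aeval (H.pull φ).toLinearMap
      ((Polynomial.C ((((q : ℚ) ^ ((w' - n) / 2))⁻¹) ^ m) * Polynomial.X ^ m * t w').map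
        (algebraMap ℚ K)) a =
      ((((q : K) ^ ((w' - n) / 2))⁻¹) ^ m) • ((H.pull φ).toLinearMap ^ m)
        (aeval (H.pull φ).toLinearMap ((t w').map (algebraMap ℚ K)) a) := by
    intro w'
    rw [Polynomial.map_mul, Polynomial.map_mul, Polynomial.map_C, Polynomial.map_pow,
      Polynomial.map_X, map_mul, map_mul, aeval_C, aeval_X_pow, Module.End.mul_apply,
      Module.End.mul_apply, Module.algebraMap_end_apply]
    congr 1
    rw [map_pow, map_inv₀, map_zpow₀, map_natCast]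
  rw [Polynomial.map_sum, map_sum, LinearMap.sum_apply,
    Finset.sum_congr rfl (fun w' _ => hterm w'), LinearMap.comp_apply]
  rcases parity n w with ⟨i, rfl⟩ | ⟨i, rfl⟩
  · have hmem : 2 * i + n ∈ s.filter (fun w => Even (w - n)) := by
      rw [Finset.mem_filter]
      refine ⟨hws, ?_⟩
      rw [add_sub_cancel_right]
      exact even_two_mul _
    rw [Finset.sum_eq_single_of_mem _ hmem]
    · rw [ht1, prj_self H ha, (F_pow_gr H hφ hF m ha).1]
      congr 4
      omega
    · intro w' hw' hne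
      rw [ht0 w' (Finset.mem_filter.1 hw').1 hne, map_zero, smul_zero]
  · rw [prj_other H ha, map_zero]
    refine Finset.sum_eq_zero fun w' hw' => ?_
    rw [ht0 w' (Finset.mem_filter.1 hw').1, map_zero, smul_zero]
    rintro rfl
    have h2 := (Finset.mem_filter.1 hw').2
    rw [Int.even_iff] at h2
    omega

lemma cyc_pow_TPX {q : ℕ} {φ : X ⟶ X} (hφ : IsFrob H q φ) {n : ℤ} {F : H.A X →ₗ[K] H.A X}
    (hF : IsCycFrob H q φ n F) (l : ℕ) {b : H.A X} (hb : b ∈ TPX H X n) :
    (F ^ l) b ∈ TPX H X n := by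
  induction l generalizing b with
  | zero => exact hb
  | succ l ih =>
    rw [pow_succ, Module.End.mul_apply]
    exact ih (F_TPX H hφ hF hb)

/-- The trace of a correspondence which acts on the even part only. -/
lemma trace_even (hcomm : GradedComm H) (hne : ∀ X : 𝒱.Obj, (1 : C.A X) ≠ 0) (x : Cor C X)
    (hx : ∀ a, actH C X H x a ∈ TPX H X 0) :
    LinearMap.trace K (H.A X) (actH C X H x) = (trA hne X x : K) := by
  have h2 : sgn H X ∘ₗ actH C X H x = actH C X H x := by
    apply LinearMap.ext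
    intro a
    rw [LinearMap.comp_apply, sgn_TPX H (hx a), zpow_zero, one_smul]
  have h3 := trace_cor H hcomm hne X x
  have h4 : LinearMap.trace K (H.A X) (sgn H X ∘ₗ actH C X H x) = (trA hne X x : K) := h3
  rw [h2] at h4
  exact h4

end pow

section mot

variable {K : Type} [Field K] [CharZero K] {H : WeilTheoryData.{u, v, 0} C K}
  [hH : IsWeilProj H] {X : 𝒱.Obj}

include hC hH

lemma idem_of {e : Cor C X} (he : ActsIdem H (cA C X e)) (a : H.A X) :
    actH C X H e (actH C X H e a) = actH C X H e a := he a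

omit hC hH in
lemma even_eq : evenPart K (H.gr X) = TPX H X 0 := by
  unfold evenPart TPX
  exact iSup_congr fun i => by rw [add_zero]

lemma mem_TPe {e : Cor C X} (he : ActsIdem H (cA C X e)) (a : H.A X) :
    a ∈ TPe H (cA C X e) ↔ a ∈ TPmot H (cA C X e) 0 := by
  constructor
  · rintro ⟨h1, h2⟩
    rw [even_eq] at h1
    exact ⟨a, h1, h2⟩
  · rintro ⟨b, hb, rfl⟩
    refine ⟨?_, idem_of he b⟩
    rw [even_eq]
    exact act_TPX H e hb

variable [FiniteDimensional K (H.A X)] {q : ℕ} {φ : X ⟶ X} (hφ : IsFrob H q φ)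
  {F : H.A X →ₗ[K] H.A X} (hF : IsCycFrob H q φ 0 F)

include hφ hF

lemma F_mot {e : Cor C X} {x : H.A X} (hx : x ∈ TPmot H (cA C X e) 0) :
    F x ∈ TPmot H (cA C X e) 0 := by
  obtain ⟨b, hb, rfl⟩ := hx
  change F (actH C X H e b) ∈ _
  rw [cyc_comm H hφ hF e hb]
  exact ⟨F b, F_TPX H hφ hF hb, rfl⟩

/-- The traces of the powers of the Frobenius on `TP_0(X, e)`. -/
lemma trace_mot (hcomm : GradedComm H) (hne : ∀ X : 𝒱.Obj, (1 : C.A X) ≠ 0) {e : Cor C X}
    (he : ActsIdem H (cA C X e)) (m : ℕ) {x : Cor C X}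
    (hx : actH C X H x = (F ^ m) ∘ₗ prj H X 0) :
    LinearMap.trace K (TPmot H (cA C X e) 0)
      ((F.restrict (fun _ h => F_mot hφ hF h) : Module.End K (TPmot H (cA C X e) 0)) ^ m) =
      (trA hne X (x * e) : K) := by
  have hidem := idem_of he
  have hE1 : ∀ x ∈ TPmot H (cA C X e) 0, x ∈ TPX H X 0 := by
    rintro _ ⟨b, hb, rfl⟩
    exact act_TPX H e hb
  have hE2 : ∀ x ∈ TPmot H (cA C X e) 0, actH C X H e x = x := by
    rintro _ ⟨b, hb, rfl⟩
    exact hidem b
  have hpow : ∀ (m : ℕ) (x : H.A X), x ∈ TPmot H (cA C X e) 0 →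
      (F ^ m) x ∈ TPmot H (cA C X e) 0 := by
    intro m
    induction m with
    | zero => intro x hx; exact hx
    | succ m ih =>
      intro x hx
      rw [pow_succ, Module.End.mul_apply]
      exact ih _ (F_mot hφ hF hx)
  have hprj : ∀ a, prj H X 0 (actH C X H e a) = actH C X H e (prj H X 0 a) := by
    intro a
    have h1 := LinearMap.congr_fun (sgn_act H e) a
    rw [LinearMap.comp_apply, LinearMap.comp_apply] at h1
    rw [prj, LinearMap.smul_apply, LinearMap.smul_apply, LinearMap.add_apply,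
      LinearMap.add_apply, LinearMap.smul_apply, LinearMap.smul_apply, LinearMap.id_apply,
      LinearMap.id_apply, map_smul, map_add, map_smul, h1]
  have hT : ∀ a, ((F ^ m) ∘ₗ prj H X 0 ∘ₗ actH C X H e) a ∈ TPmot H (cA C X e) 0 := by
    intro a
    rw [LinearMap.comp_apply, LinearMap.comp_apply, hprj]
    exact hpow m _ ⟨_, prj_mem H 0 a, rfl⟩
  have h1 : (F ^ m) ∘ₗ prj H X 0 ∘ₗ actH C X H e = actH C X H (x * e) := by
    rw [← LinearMap.comp_assoc, ← hx, map_mul]
    rfl
  have h2 := trace_even H hcomm hne (x * e) (fun a => by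
    rw [← h1]
    exact hE1 _ (hT a))
  rw [← h2, ← h1, ← LinearMap.trace_restrict_eq_of_forall_mem (TPmot H (cA C X e) 0) _ hT]
  congr 1
  apply LinearMap.ext
  intro x
  apply Subtype.ext
  rw [pow_restrict_coe, LinearMap.coe_restrict_apply, LinearMap.comp_apply,
    LinearMap.comp_apply, hE2 x x.2, prj_of_mem H (hE1 x x.2)]

end mot

end Pool.Agent.Y121.GT
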