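import Pool.Agent.Y121.GT.Ind
import Pool.Agent.Y121.NK.Main

/-!
# The strong form of the Tate conjecture for direct summands
-/

open CategoryTheory AlgebraicGeometry Polynomial Module

universe u v

namespace Pool.Agent.Y121.GT

open Pool.Agent.H914 Pool.Agent.H914.VarClass Pool.Agent.H914.VarClass.Obj Pool.Agent.W492.BB
  Pool.Agent.W550.Corr Pool.Agent.TH133 Pool.Agent.Y121.NK Pool.Agent.Y121.TP
  Pool.Agent.TH829.Kim Pool.Agent.TH829.Prime

set_option linter.unusedSectionVars false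

variable {k : Type u} [Field k] {𝒱 : VarClass k}

section deg

variable {C : TheoryData.{u, v, 0} 𝒱 ℚ} [hC : IsChowProj C]
  (hne : ∀ X : 𝒱.Obj, (1 : C.A X) ≠ 0)

include hC

/-- The degree. -/
noncomputable def degL (X : 𝒱.Obj) : C.A X →ₗ[ℚ] ℚ where
  toFun x := (exists_hasDegree' x).choose
  map_add' a b := by
    apply hasDegree_uniq (hne X) (exists_hasDegree' (a + b)).choose_spec
    exact HasDegree.add (exists_hasDegree' a).choose_spec (exists_hasDegree' b).choose_spec
  map_smul' r a := by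
    apply hasDegree_uniq (hne X) (exists_hasDegree' (r • a)).choose_spec
    exact HasDegree.smul r (exists_hasDegree' a).choose_spec

lemma degL_spec {X : 𝒱.Obj} (x : C.A X) : HasDegree C x (degL hne X x) :=
  (exists_hasDegree' x).choose_spec

lemma degL_eq {X : 𝒱.Obj} {x : C.A X} {q : ℚ} (h : HasDegree C x q) : degL hne X x = q :=
  hasDegree_uniq (hne X) (degL_spec hne x) h

/-- The intersection pairing. -/
noncomputable def pairL (X : 𝒱.Obj) : C.A X →ₗ[ℚ] C.A X →ₗ[ℚ] ℚ :=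
  (LinearMap.mul ℚ (C.A X)).compr₂ (degL hne X)

lemma pairL_apply {X : 𝒱.Obj} (x y : C.A X) : pairL hne X x y = degL hne X (x * y) := rfl

lemma pairL_eq_zero {X : 𝒱.Obj} (x : C.A X) :
    pairL hne X x = 0 ↔ ∀ b, HasDegree C (C.mul x b) 0 := by
  constructor
  · intro h b
    have h1 := degL_spec hne (x * b)
    have h2 : degL hne X (x * b) = 0 := LinearMap.congr_fun h b
    rw [h2] at h1
    exact h1
  · intro h
    ext b
    exact degL_eq hne (h b)

end deg

/-- The rank modulo the kernel of a linear map. -/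
lemma rank_mod_ker {A N : Type*} [AddCommGroup A] [Module ℚ A] [AddCommGroup N] [Module ℚ N]
    (M : Submodule ℚ A) (β : A →ₗ[ℚ] N) :
    finrank ℚ (M.map (LinearMap.ker β).mkQ) = finrank ℚ (LinearMap.range (β.domRestrict M)) := by
  have h1 : LinearMap.range (β.domRestrict M) =
      (M.map (LinearMap.ker β).mkQ).map ((LinearMap.ker β).liftQ β le_rfl) := by
    rw [← Submodule.map_comp, Submodule.liftQ_mkQ, LinearMap.range_domRestrict]
  rw [h1]
  refine LinearEquiv.finrank_eq (Submodule.equivMapOfInjective _ ?_ _)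
  rw [← LinearMap.ker_eq_bot]
  exact Submodule.ker_liftQ_eq_bot _ _ _ le_rfl

section main

variable {C : TheoryData.{u, v, 0} 𝒱 ℚ} [hC : IsChowProj C] {T : ChowTower C}
  {K : Type} [Field K] [CharZero K] {H : WeilTheoryData.{u, v, 0} C K}
  {c : Classes T H} {X : 𝒱.Obj} [FiniteDimensional K (H.A X)] {q : ℕ} {φ : X ⟶ X}
  {F : H.A X →ₗ[K] H.A X}

include hC

lemma isCyc (h : IsReal c X q φ F) : IsCycFrob H q φ 0 F := by
  intro i a ha
  refine h.isCyclo.isTwist i a ?_
  rw [add_zero] at ha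
  exact ha

/-- The restriction of the cyclotomic Frobenius to `TP_0(X, e)`. -/
noncomputable def fV (h : IsReal c X q φ F) (e : Cor C X) :
    Module.End K (TPmot H (cA C X e) 0) :=
  have := h.isWeil
  F.restrict (fun _ hx => F_mot h.isFrob (isCyc h) hx)

lemma fV_pow (h : IsReal c X q φ F) (e : Cor C X) (m : ℕ) (x : TPmot H (cA C X e) 0) :
    ((((fV h e) ^ m) x : TPmot H (cA C X e) 0) : H.A X) = (F ^ m) x := by
  have := h.isWeil
  exact pow_restrict_coe F _ (fun _ hx => F_mot h.isFrob (isCyc h) hx) x m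

lemma fV_sub (h : IsReal c X q φ F) (e : Cor C X) (m l : ℕ) (x : TPmot H (cA C X e) 0) :
    ((((((fV h e) ^ m) - (1 : K) • (1 : Module.End K (TPmot H (cA C X e) 0))) ^ l) x :
      TPmot H (cA C X e) 0) : H.A X) = ((F ^ m - 1) ^ l) x := by
  induction l with
  | zero => rfl
  | succ l ih =>
    rw [pow_succ', pow_succ', Module.End.mul_apply, Module.End.mul_apply, ← ih]
    generalize ((((fV h e) ^ m) - (1 : K) • (1 : Module.End K (TPmot H (cA C X e) 0))) ^ l) x = y
    rw [one_smul, LinearMap.sub_apply, LinearMap.sub_apply, Submodule.coe_sub, fV_pow]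
    rfl

/-- The multiplicity in terms of the restriction. -/
lemma mult_fV (h : IsReal c X q φ F) {e : Cor C X} (he : ActsIdem H (cA C X e)) (n : ℕ) :
    multNC H F n (cA C X e) = finrank K (Module.End.maxGenEigenspace ((fV h e) ^ (n + 1)) 1) := by
  have := h.isWeil
  have h1 : Submodule.span K {a | a ∈ TPe H (cA C X e) ∧ ∃ l : ℕ, ((F ^ (n + 1) - 1) ^ l) a = 0} =
      (Module.End.maxGenEigenspace ((fV h e) ^ (n + 1)) 1).map
        (TPmot H (cA C X e) 0).subtype := by
    apply le_antisymm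
    · rw [Submodule.span_le]
      rintro a ⟨h2, l, hl⟩
      rw [mem_TPe he] at h2
      refine ⟨⟨a, h2⟩, ?_, rfl⟩
      rw [SetLike.mem_coe, Module.End.mem_maxGenEigenspace]
      refine ⟨l, ?_⟩
      apply Subtype.ext
      rw [fV_sub, hl]
      rfl
    · rintro _ ⟨x, hx, rfl⟩
      rw [SetLike.mem_coe, Module.End.mem_maxGenEigenspace] at hx
      obtain ⟨l, hl⟩ := hx
      refine Submodule.subset_span ⟨?_, l, ?_⟩
      · rw [mem_TPe he]
        exact x.2
      · have h3 := fV_sub h e (n + 1) l x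
        rw [hl] at h3
        exact h3.symm
  rw [multNC, multOne, h1]
  exact Submodule.finrank_map_subtype_eq _ _

/-- The strong form of the Tate conjecture. -/
theorem strong (hT : ∀ n, IsChowProj (T.CC n)) (h : IsReal c X q φ F) {e : Cor C X}
    (he : ActsIdem H (cA C X e)) (n : ℕ) :
    (TateNC c F n (cA C X e) ∧ NumHomNC c n (cA C X e)) ↔
      rankNC T n (cA C X e) = multNC H F n (cA C X e) := by
  have hW := h.isWeil
  have hWn := h.isLevel.isWeil_lvl n
  have hTn := hT n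
  have hne : ∀ Z : 𝒱.Obj, (1 : (T.CC n).A Z) ≠ 0 := one_ne (c.lvl n)
  have hF := isCyc h
  have hφ := h.isFrob
  set V := TPmot H (cA C X e) 0 with hV
  set W := TPX H X 0 with hWdef
  -- cycle classes
  have hcl : ∀ z : (T.CC n).A X,
      c.cl n X ((T.CC n).act (T.bc n (X.prod X) (cA C X e)) z) = actH C X H e (c.cl n X z) := by
    intro z
    have h6 := cl_act (H := c.lvl n) (T.bc n (X.prod X) (cA C X e)) z
    have h7 : (c.lvl n).cl (T.bc n (X.prod X) (cA C X e)) = H.cl (cA C X e) :=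
      h.isLevel.cl_bc n (X.prod X) (cA C X e)
    rw [h7] at h6
    exact h6
  have hclW : ∀ z : (T.CC n).A X, c.cl n X z ∈ W := by
    intro z
    rw [← sum_cmp z, map_sum]
    refine Submodule.sum_mem _ fun i _ => ?_
    have h8 : (c.lvl n).cl (cmp (T.CC n) X i z) ∈ H.gr X (2 * i + 0) := by
      rw [add_zero]
      exact hWn.isClassMap.cl_mem (cmp_mem i z)
    exact mem_TPX H h8
  set M : Submodule ℚ ((T.CC n).A X) :=
    LinearMap.range ((T.CC n).actL (T.bc n (X.prod X) (cA C X e))) with hM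
  have hclV : ∀ z : M, c.cl n X z.1 ∈ V := by
    rintro ⟨_, z, rfl⟩
    change c.cl n X ((T.CC n).act (T.bc n (X.prod X) (cA C X e)) z) ∈ V
    rw [hcl]
    exact ⟨_, hclW z, rfl⟩
  let cV : M → V := fun z => ⟨c.cl n X z.1, hclV z⟩
  let cW : (T.CC n).A X → W := fun z => ⟨c.cl n X z, hclW z⟩
  -- the pairing
  obtain ⟨l, hl⟩ := exists_lam H X
  let B0 : H.A X →ₗ[K] H.A X →ₗ[K] K := l • (LinearMap.mul K (H.A X)).compr₂ (H.tr X)
  have hB0 : ∀ a b, B0 a b = l * H.tr X (a * b) := fun a b => rfl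
  let B : V →ₗ[K] W →ₗ[K] K := (B0.compl₁₂ V.subtype W.subtype)
  have hB1 : ∀ (a : V) (b : W), B a b = l * H.tr X ((a : H.A X) * (b : H.A X)) := fun a b => rfl
  have htrφ : ∀ a : H.A X, H.tr X (H.pull φ a) = (q : K) ^ X.dim * H.tr X a := by
    intro a
    have ht : H.push φ 1 = ((q : K) ^ X.dim) • (1 : H.A X) := by
      have h3 := congrArg H.cl hφ.frobCH.2
      have h4 : H.cl (C.down φ (1 : C.A X)) = H.push φ (H.cl 1) := H.cl_push _ _
      rw [h4, map_one, cl_smul_one] at h3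
      rw [h3]
      congr 1
      rw [Rat.cast_pow, Rat.cast_natCast]
    have h8 := H.proj_left φ 1 a
    rw [ht, mul_smul_comm, mul_one, mul_one] at h8
    have h9 := H.tr_push φ (H.pull φ a)
    rw [h8, map_smul, smul_eq_mul] at h9
    exact h9.symm
  have hq0 : (q : K) ≠ 0 := q_ne H hφ
  have hinv : ∀ a ∈ TPX H X 0, ∀ b ∈ TPX H X 0, H.tr X (F a * F b) = H.tr X (a * b) := by
    intro a ha b hb
    let m : H.A X →ₗ[K] H.A X →ₗ[K] K := (LinearMap.mul K (H.A X)).compr₂ (H.tr X)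
    have e1 : (m.flip (F b)) ∘ₗ F = (m.flip (F b)) ∘ₗ F := rfl
    have key : ∀ (i : ℤ) (a : H.A X), a ∈ H.gr X (2 * i + 0) →
        ((m.flip (F b)) ∘ₗ F) a = (m.flip b) a := by
      intro i a ha
      have key2 : ∀ (j : ℤ) (b : H.A X), b ∈ H.gr X (2 * j + 0) →
          ((m (F a)) ∘ₗ F) b = (m a) b := by
        intro j b hb
        change H.tr X (F a * F b) = H.tr X (a * b)
        rw [hF i a ha, hF j b hb]
        rw [add_zero] at ha hb
        have h10 : a * b ∈ H.gr X (2 * i + 2 * j) := H.mul_mem ha hb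
        rw [smul_mul_assoc, mul_smul_comm, map_smul, map_smul, smul_eq_mul, smul_eq_mul]
        have h11 : H.up φ a * H.up φ b = H.pull φ (a * b) := (map_mul (H.pull φ) a b).symm
        rw [h11, htrφ]
        by_cases hij : 2 * i + 2 * j = 2 * (X.dim : ℤ)
        · have h12 : i + j = X.dim := by omega
          have h13 : ((q : K) ^ i)⁻¹ * (((q : K) ^ j)⁻¹ * ((q : K) ^ X.dim)) = 1 := by
            rw [← mul_assoc, ← mul_inv, ← zpow_add₀ hq0, h12, zpow_natCast]
            exact inv_mul_cancel₀ (pow_ne_zero _ hq0)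
          calc _ = (((q : K) ^ i)⁻¹ * (((q : K) ^ j)⁻¹ * ((q : K) ^ X.dim))) *
              H.tr X (a * b) := by ring
            _ = _ := by rw [h13, one_mul]
        · rw [tr_zero H h10 hij, mul_zero, mul_zero, mul_zero]
      exact TPX_eqOn H key2 hb
    exact TPX_eqOn H key ha
  have hinv2 : ∀ (m : ℕ), ∀ a ∈ TPX H X 0, ∀ b ∈ TPX H X 0,
      H.tr X ((F ^ m) a * (F ^ m) b) = H.tr X (a * b) := by
    intro m
    induction m with
    | zero => intro a _ b _; rfl
    | succ m ih =>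
      intro a ha b hb
      rw [pow_succ, Module.End.mul_apply, Module.End.mul_apply,
        ih _ (F_TPX H hφ hF ha) _ (F_TPX H hφ hF hb)]
      exact hinv a ha b hb
  have hVW : ∀ a ∈ V, a ∈ TPX H X 0 := by
    rintro _ ⟨b, hb, rfl⟩
    exact act_TPX H e hb
  let g0 : Module.End K W := F.restrict (fun _ hx => F_TPX H hφ hF hx)
  have hg0 : ∀ (m : ℕ) (x : W), (((g0 ^ m) x : W) : H.A X) = (F ^ m) x :=
    fun m x => pow_restrict_coe F _ (fun _ hx => F_TPX H hφ hF hx) x m
  -- the intersection pairing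
  let β : M →ₗ[ℚ] (T.CC n).A X →ₗ[ℚ] ℚ := (pairL hne X).domRestrict M
  have hβ : ∀ (z : M) (z' : (T.CC n).A X), B (cV z) (cW z') = (β z z' : K) := by
    intro z z'
    rw [hB1]
    change l * H.tr X (c.cl n X z.1 * c.cl n X z') = ((degL hne X (z.1 * z') : ℚ) : K)
    rw [← map_mul]
    have h14 := (degL_spec hne (z.1 * z') X).1
    have h15 := congrArg (c.lvl n).cl h14
    rw [(c.lvl n).cl_push, (c.lvl n).cl_pull, cl_smul_one] at h15
    have h16 := hl (c.cl n X (z.1 * z'))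
    have h17 : (l * H.tr X (c.cl n X (z.1 * z'))) • (1 : H.A X) =
        ((degL hne X (z.1 * z') : ℚ) : K) • (1 : H.A X) := h16.symm.trans h15
    have h18 := sub_eq_zero.2 h17
    rw [← sub_smul, smul_eq_zero] at h18
    rcases h18 with h18 | h18
    · exact sub_eq_zero.1 h18
    · exact absurd h18 (hW.one_ne_zero X)
  have key := Lin.tate β ((fV h e) ^ (n + 1)) (g0 ^ (n + 1)) B
    (fun a b => by
      rw [hB1, hB1, hg0, fV_pow]
      rw [hinv2 (n + 1) a (hVW a a.2) b b.2])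
    cV cW
    (fun x y => Subtype.ext (map_add (c.cl n X) x.1 y.1))
    (fun r x => Subtype.ext (cl_smul (c.lvl n) X r x.1))
    (fun z => Subtype.ext ((fV_pow h e (n + 1) (cV z)).trans (h.isCyclo.fixed n _ ⟨z.1, rfl⟩)))
    (fun z => Subtype.ext ((hg0 (n + 1) (cW z)).trans (h.isCyclo.fixed n _ ⟨z, rfl⟩)))
    hβ
  -- the translation
  have hK0 : K0 T n (cA C X e) = (M : Set ((T.CC n).A X)) := rfl
  have hNum : Num T X n = (LinearMap.ker (pairL hne X) : Set ((T.CC n).A X)) := by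
    ext z
    rw [SetLike.mem_coe, LinearMap.mem_ker, pairL_eq_zero]
    rfl
  have hrank : rankNC T n (cA C X e) = finrank ℚ (LinearMap.range β) := by
    rw [rankNC, rankMod, hK0, hNum, Submodule.span_eq, Submodule.span_eq]
    exact rank_mod_ker M (pairL hne X)
  have hT1 : TateNC c F n (cA C X e) ↔
      ∀ a, ((fV h e) ^ (n + 1)) a = a → a ∈ Submodule.span K (Set.range cV) := by
    have himg : Submodule.span K (c.cl n X '' K0 T n (cA C X e)) =
        (Submodule.span K (Set.range cV)).map V.subtype := by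
      rw [Submodule.map_span, ← Set.range_comp]
      congr 1
      ext b
      constructor
      · rintro ⟨z, hz, rfl⟩
        exact ⟨⟨z, hz⟩, rfl⟩
      · rintro ⟨z, rfl⟩
        exact ⟨z.1, z.2, rfl⟩
    constructor
    · intro hTate a ha
      have h19 := hTate a.1 ((mem_TPe he _).2 a.2) (by
        rw [← fV_pow h e]
        exact congrArg Subtype.val ha)
      rw [himg] at h19
      obtain ⟨b, hb, hba⟩ := h19
      have h20 : b = a := Subtype.ext hba
      rw [← h20]
      exact hb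
    · intro hall a ha hFa
      rw [mem_TPe he] at ha
      rw [himg]
      exact ⟨⟨a, ha⟩, hall ⟨a, ha⟩ (Subtype.ext ((fV_pow h e (n + 1) ⟨a, ha⟩).trans hFa)), rfl⟩
  have hD1 : NumHomNC c n (cA C X e) ↔ ∀ z, β z = 0 → cV z = 0 := by
    constructor
    · intro hD z hz
      apply Subtype.ext
      refine hD z.1 z.2 ?_
      rw [hNum]
      exact hz
    · intro hall z hz hz0
      rw [hNum] at hz0
      exact congrArg Subtype.val (hall ⟨z, hz⟩ hz0)
  rw [hrank, mult_fV h he, key, hT1, hD1]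

end main

section indep

variable {C : TheoryData.{u, v, 0} 𝒱 ℚ} [hC : IsChowProj C] {T : ChowTower C}
  {K₁ K₂ : Type} [Field K₁] [CharZero K₁] [Field K₂] [CharZero K₂]
  {H₁ : WeilTheoryData.{u, v, 0} C K₁} {H₂ : WeilTheoryData.{u, v, 0} C K₂}
  {c₁ : Classes T H₁} {c₂ : Classes T H₂} {X : 𝒱.Obj} [FiniteDimensional K₁ (H₁.A X)]
  [FiniteDimensional K₂ (H₂.A X)] {q : ℕ} {φ : X ⟶ X}
  {F₁ : H₁.A X →ₗ[K₁] H₁.A X} {F₂ : H₂.A X →ₗ[K₂] H₂.A X}

include hC

/-- The multiplicities do not depend on the cohomology theory. -/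
theorem mult_indep (h₁ : IsReal c₁ X q φ F₁) (h₂ : IsReal c₂ X q φ F₂) {e : Cor C X}
    (he₁ : ActsIdem H₁ (cA C X e)) (he₂ : ActsIdem H₂ (cA C X e)) (n : ℕ) :
    multNC H₁ F₁ n (cA C X e) = multNC H₂ F₂ n (cA C X e) := by
  have hW₁ := h₁.isWeil
  have hW₂ := h₂.isWeil
  have hne : ∀ Z : 𝒱.Obj, (1 : C.A Z) ≠ 0 := one_ne H₁
  rw [mult_fV h₁ he₁, mult_fV h₂ he₂]
  apply Lin.mult_eq
  intro m
  choose P₁ hP₁ hz₁ using weil' H₁ h₁.isFrob
  choose P₂ hP₂ hz₂ using weil' H₂ h₂.isFrob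
  have hq1 : (1 : ℝ) < q := by exact_mod_cast h₁.isFrob.one_lt
  obtain ⟨t, ht⟩ := exists_sep (Finset.Icc (0 : ℤ) (2 * X.dim)) (fun w => P₁ w * P₂ w) (by
    intro i _ j _ hij
    have hroot : ∀ (w : ℤ) (z : ℂ), aeval z (P₁ w * P₂ w) = 0 →
        ‖z‖ = (q : ℝ) ^ ((w : ℝ) / 2) := by
      intro w z hz
      rw [map_mul, mul_eq_zero] at hz
      rcases hz with hz | hz
      · exact hz₁ w z hz
      · exact hz₂ w z hz
    refine coprime_of_norm (a := (q : ℝ) ^ ((i : ℝ) / 2)) (b := (q : ℝ) ^ ((j : ℝ) / 2)) ?_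
      (hroot i) (hroot j)
    intro h
    apply hij
    have h2 := (Real.strictMono_rpow_of_base_gt_one hq1).injective h
    have h3 : (i : ℝ) = j := by linarith
    exact_mod_cast h3)
  set x : Cor C X := aeval (gam C φ) (vpoly q 0 ((n + 1) * m) (Finset.Icc (0 : ℤ) (2 * X.dim)) t)
    with hx
  have e1 := pow_cor_core H₁ h₁.isFrob (isCyc h₁) ((n + 1) * m) (fun w => P₁ w * P₂ w) t
    (fun w => ⟨P₁ w, hP₁ w, Dvd.intro _ rfl⟩) ht
  have e2 := pow_cor_core H₂ h₂.isFrob (isCyc h₂) ((n + 1) * m) (fun w => P₁ w * P₂ w) t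
    (fun w => ⟨P₂ w, hP₂ w, Dvd.intro_left _ rfl⟩) ht
  refine ⟨trA hne X (x * e), ?_, ?_⟩
  · rw [← pow_mul]
    exact trace_mot h₁.isFrob (isCyc h₁) h₁.comm hne he₁ _ e1
  · rw [← pow_mul]
    exact trace_mot h₂.isFrob (isCyc h₂) h₂.comm hne he₂ _ e2

end indep

end Pool.Agent.Y121.GT
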